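import Pool.Agent.H52.XR2.S2

/-!
# XR2, row CHU: the choice of `u`
-/

set_option autoImplicit false

open MeasureTheory Set Filter Topology Metric
open scoped Real ENNReal RealInnerProductSpace

namespace Pool.XR2

open Pool.Agent.H45.XR

/-- The normals of completely symmetric planes. -/
def NN (K : Set E3) : Set E3 :=
  {n | ‖n‖ = 1 ∧ ∀ u w, OP u w → ⟪n, u⟫ = 0 → ⟪n, w⟫ = 0 → SymR K u w}

lemma sphere_infinite : {n : E3 | ‖n‖ = 1}.Infinite := by
  have h1 : {n : E3 | ‖n‖ = 1} = sphere (0 : E3) 1 := by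
    ext n
    rw [mem_sphere_zero_iff_norm]
    rfl
  rw [h1]
  have h2 : IsPreconnected (sphere (0 : E3) 1) := by
    apply isPreconnected_sphere
    rw [rank_eq_card_basis (EuclideanSpace.basisFun (Fin 3) ℝ).toBasis]
    simp
  refine h2.infinite_of_nontrivial ?_
  refine ⟨EuclideanSpace.single 0 1, by simp, EuclideanSpace.single 1 1, by simp, ?_⟩
  intro h
  have h3 := congrArg (fun x : E3 => x 0) h
  simp at h3

lemma dense_off {n : E3} (hn : n ≠ 0) : Dense {x : E3 | ⟪n, x⟫ ≠ 0} := by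
  rw [Metric.dense_iff]
  intro x r hr
  by_cases hx : ⟪n, x⟫ ≠ 0
  · exact ⟨x, mem_ball_self hr, hx⟩
  · push Not at hx
    have hpos : 0 < ‖n‖ := norm_pos_iff.2 hn
    refine ⟨x + (r / (2 * ‖n‖)) • n, ?_, ?_⟩
    · rw [mem_ball, dist_eq_norm, add_sub_cancel_left, norm_smul, Real.norm_eq_abs,
        abs_of_pos (by positivity)]
      field_simp
      linarith
    · show ⟪n, x + (r / (2 * ‖n‖)) • n⟫ ≠ 0
      rw [inner_add_right, hx, inner_smul_right, real_inner_self_eq_norm_sq, zero_add]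
      positivity

theorem t_chu (hHTN : HTNStmt) (hG3S : G3SStmt) (hCLY : CLYStmt) (hSEG : SEGStmt) : CHUStmt := by
  intro K hK hnp
  have hfin : (NN K).Finite := by
    by_contra hinf
    apply hnp
    apply hG3S K hK
    refine Set.Infinite.mono ?_ hinf
    intro n hn
    exact ⟨hn.1, hHTN K n hK hn.1 hn.2⟩
  by_contra hcon
  have hall : ∀ u : E3, ‖u‖ = 1 → NoSegU K u → (∀ n ∈ NN K, ⟪n, u⟫ ≠ (0 : ℝ)) →
      ∀ w, OP u w → SymR K u w := by
    intro u hu hseg hN w hw
    by_contra hns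
    apply hcon
    refine ⟨u, hu, hseg, fun n hn hnu => ?_, w, hw, hns⟩
    by_contra hno
    push Not at hno
    exact hN n ⟨hn, fun v w' hvw h1 h2 => hno v w' hvw h1 h2⟩ hnu
  -- all pairs are symmetric
  have hsym : ∀ u w, OP u w → SymR K u w := by
    intro u w huw
    obtain ⟨hu, hw, huw0⟩ := huw
    have hdense : Dense (⋂ n ∈ NN K, {x : E3 | ⟪n, x⟫ ≠ (0 : ℝ)}) := by
      apply dense_biInter_of_isOpen
      · intro n _
        exact isOpen_ne_fun (by fun_prop) continuous_const
      · exact hfin.countable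
      · intro n hn
        apply dense_off
        intro h0
        have := hn.1
        rw [h0, norm_zero] at this
        exact zero_ne_one this
    have hex : ∀ k : ℕ, ∃ v : E3, ‖v‖ = 1 ∧ ‖v - u‖ < 1 / ((k : ℝ) + 1) ∧
        ∀ w, OP v w → SymR K v w := by
      intro k
      have hk : (0 : ℝ) < 1 / ((k : ℝ) + 1) := by positivity
      obtain ⟨ε, hε, hε1⟩ : ∃ ε : ℝ, ε = 1 / ((k : ℝ) + 1) ∧ ε ≤ 1 := by
        refine ⟨_, rfl, ?_⟩
        rw [div_le_one (by positivity)]
        linarith [(Nat.cast_nonneg k : (0 : ℝ) ≤ k)]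
      rw [← hε] at hk ⊢
      obtain ⟨x, hx, hxN⟩ := (Metric.dense_iff.1 hdense) u (ε / 4) (by positivity)
      rw [mem_ball, dist_eq_norm] at hx
      have hxn1 : |‖x‖ - 1| < ε / 4 := by
        have := abs_norm_sub_norm_le x u
        rw [hu] at this
        exact this.trans_lt hx
      have hxn2 := abs_lt.1 hxn1
      have hxpos : 0 < ‖x‖ := by linarith
      -- normalise
      obtain ⟨y, hy⟩ : ∃ y, y = ‖x‖⁻¹ • x := ⟨_, rfl⟩
      have hy1 : ‖y‖ = 1 := by
        rw [hy, norm_smul, norm_inv, norm_norm, inv_mul_cancel₀ hxpos.ne']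
      have hyx : ‖y - x‖ < ε / 4 := by
        have e1 : x = ‖x‖ • y := by
          rw [hy, smul_smul, mul_inv_cancel₀ hxpos.ne', one_smul]
        have e2 : y - x = (1 - ‖x‖) • y := by
          rw [sub_smul, one_smul, ← e1]
        rw [e2, norm_smul, hy1, mul_one, Real.norm_eq_abs, abs_sub_comm]
        exact hxn1
      have hyu : ‖y - u‖ < ε / 2 := by
        have : y - u = (y - x) + (x - u) := by abel
        rw [this]
        linarith [norm_add_le (y - x) (x - u)]
      have hyN : ∀ n ∈ NN K, ⟪n, y⟫ ≠ (0 : ℝ) := by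
        intro n hn
        have h1 : ⟪n, x⟫ ≠ (0 : ℝ) := by
          have := mem_iInter₂.1 hxN n hn
          exact this
        rw [hy, inner_smul_right]
        exact mul_ne_zero (inv_ne_zero hxpos.ne') h1
      -- the open set
      have hop : IsOpen (⋂ n ∈ NN K, {x : E3 | ⟪n, x⟫ ≠ (0 : ℝ)}) :=
        hfin.isOpen_biInter fun n _ => isOpen_ne_fun (by fun_prop) continuous_const
      obtain ⟨δ, hδ, hball⟩ := Metric.isOpen_iff.1 hop y (mem_iInter₂.2 hyN)
      obtain ⟨v, hv1, hvy, hseg⟩ := hSEG K y (min δ (ε / 2)) hK hy1 (lt_min hδ (by positivity))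
      refine ⟨v, hv1, ?_, ?_⟩
      · have : v - u = (v - y) + (y - u) := by abel
        rw [this]
        linarith [norm_add_le (v - y) (y - u), hvy.trans_le (min_le_right _ _)]
      · apply hall v hv1 hseg
        have h1 : v ∈ ball y δ := by
          rw [mem_ball, dist_eq_norm]
          exact hvy.trans_le (min_le_left _ _)
        exact mem_iInter₂.1 (hball h1)
    choose v hv1 hvu hvs using hex
    have hvt : Tendsto v atTop (𝓝 u) := by
      rw [tendsto_iff_norm_sub_tendsto_zero]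
      refine squeeze_zero (fun _ => norm_nonneg _) (fun k => (hvu k).le)
        tendsto_one_div_add_atTop_nhds_zero_nat
    -- the second vectors
    have hz : Tendsto (fun k => w - ⟪v k, w⟫ • v k) atTop (𝓝 (w - ⟪u, w⟫ • u)) :=
      tendsto_const_nhds.sub ((hvt.inner tendsto_const_nhds).smul hvt)
    rw [huw0, zero_smul, sub_zero] at hz
    have hzn : Tendsto (fun k => ‖w - ⟪v k, w⟫ • v k‖) atTop (𝓝 1) := by
      have := hz.norm
      rwa [hw] at this
    have hz1 : Tendsto (fun k => ‖w - ⟪v k, w⟫ • v k‖⁻¹ • (w - ⟪v k, w⟫ • v k)) atTop (𝓝 w) := by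
      have := (hzn.inv₀ one_ne_zero).smul hz
      rwa [inv_one, one_smul] at this
    have hmem : ∀ᶠ k in atTop, (v k, ‖w - ⟪v k, w⟫ • v k‖⁻¹ • (w - ⟪v k, w⟫ • v k)) ∈
        {p : E3 × E3 | OP p.1 p.2 ∧ SymR K p.1 p.2} := by
      filter_upwards [hzn.eventually (lt_mem_nhds (by norm_num : (1 / 2 : ℝ) < 1))] with k hk
      have hpos : 0 < ‖w - ⟪v k, w⟫ • v k‖ := by linarith
      have hop : OP (v k) (‖w - ⟪v k, w⟫ • v k‖⁻¹ • (w - ⟪v k, w⟫ • v k)) := by
        refine ⟨hv1 k, ?_, ?_⟩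
        · rw [norm_smul, norm_inv, norm_norm, inv_mul_cancel₀ hpos.ne']
        · rw [inner_smul_right, inner_sub_right, inner_smul_right, real_inner_self_eq_norm_sq,
            hv1 k]
          ring
      exact ⟨hop, hvs k _ hop⟩
    have hlim := (hCLY K hK).mem_of_tendsto (hvt.prodMk_nhds hz1) hmem
    exact hlim.2
  apply sphere_infinite
  refine hfin.subset ?_
  intro n hn
  exact ⟨hn, fun u w huw _ _ => hsym u w huw⟩

end Pool.XR2
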