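import Pool.Agent.H52.XR2.S2

/-!
# XR2, row PMH: sections of mates
-/

set_option autoImplicit false

open MeasureTheory Set Filter Topology Metric
open scoped Real ENNReal RealInnerProductSpace

namespace Pool.XR2

open Pool.Agent.H45.XR

/-- The centroid of the translated section is the origin. -/
lemma int_tr_cen {C : Set ℂ} (hC : IsCompact C) (hi : (interior C).Nonempty) :
    ∫ z in tr C (cen C), z = 0 := by
  have h1 : ∫ z in tr C (cen C), z = ∫ z in C, (z - cen C) := by
    have h2 := (measurePreserving_add_right (volume : Measure ℂ) (cen C)).setIntegral_preimage_emb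
      (Homeomorph.addRight (cen C)).measurableEmbedding (fun z => z - cen C) C
    have h3 : (fun w : ℂ => w + cen C) ⁻¹' C = tr C (cen C) := rfl
    rw [h3] at h2
    rw [← h2]
    refine integral_congr_ae (Filter.Eventually.of_forall fun w => ?_)
    show w = w + cen C - cen C
    ring
  have hf : volume C ≠ ⊤ := hC.measure_lt_top.ne
  have h4 : IntegrableOn (fun z : ℂ => z) C := continuous_id.continuousOn.integrableOn_compact hC
  have h5 : IntegrableOn (fun _ : ℂ => cen C) C := integrableOn_const hf
  rw [h1, integral_sub h4 h5, setIntegral_const]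
  unfold cen
  have hpos : (volume C).toReal ≠ 0 := by
    have : 0 < volume C := lt_of_lt_of_le (isOpen_interior.measure_pos volume hi)
      (measure_mono interior_subset)
    exact (ENNReal.toReal_pos this.ne' hf).ne'
  rw [measureReal_def, smul_smul, mul_inv_cancel₀ hpos, one_smul, sub_self]

theorem t_pmh : PMHStmt := by
  intro K K' φ₀ φ₁ hK hM h01 h10 hn0 hn1
  have hK' := hM.body
  have hH : Hts K' = Hts K := Hts_same hK hK' hM.x0
  refine ⟨hH, fun h hh => ?_⟩
  have hh' : h ∈ Hts K' := by rw [hH]; exact hh
  have hcen : cen (sec K' h) = cen (sec K h) := by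
    unfold cen
    rw [sameX_volume (sec_compact hK h) (sec_compact hK' h) (hM.x0 h),
      sameX_integral (sec_compact hK h) (sec_compact hK' h) h01 h10 (hM.x0 h) (hM.x1 h)]
  refine ⟨hcen, ⟨body_Cq hK hh, body_Cq hK' hh', h01, h10, ?_, ?_, hn0 h hh, hn1 h hh⟩,
    int_tr_cen (sec_compact hK h) (interior_sec_nonempty hK hh)⟩
  · unfold Cq
    rw [hcen]
    exact sameX_tr (hM.x0 h)
  · unfold Cq
    rw [hcen]
    exact sameX_tr (hM.x1 h)

end Pool.XR2
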