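import Pool.Agent.H52.XR2.S2

/-!
# XR2, row SGB: sheared bodies
-/

set_option autoImplicit false

open MeasureTheory Set Filter Topology Metric
open scoped Real ENNReal RealInnerProductSpace

namespace Pool.XR2

open Pool.Agent.H45.XR

/-- The shear. -/
noncomputable def shr (g : ℂ) : (ℂ × ℝ) ≃L[ℝ] (ℂ × ℝ) :=
  LinearEquiv.toContinuousLinearEquiv
    { toFun := fun p => (p.1, p.2 + (g.re * p.1.re + g.im * p.1.im))
      invFun := fun p => (p.1, p.2 - (g.re * p.1.re + g.im * p.1.im))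
      map_add' := fun p q => Prod.ext (by simp) (by simp; ring)
      map_smul' := fun c p => Prod.ext (by simp) (by simp; ring)
      left_inv := fun p => by simp
      right_inv := fun p => by simp }

lemma shr_apply (g : ℂ) (p : ℂ × ℝ) :
    shr g p = (p.1, p.2 + (g.re * p.1.re + g.im * p.1.im)) := rfl

lemma Sg_eq (g : ℂ) (K : Set (ℂ × ℝ)) : Sg g K = shr g ⁻¹' K := rfl

lemma body3_equiv (L : (ℂ × ℝ) ≃L[ℝ] (ℂ × ℝ)) {K : Set (ℂ × ℝ)} (hK : Body3 K) :
    Body3 (L ⁻¹' K) := by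
  obtain ⟨h1, h2, h3⟩ := hK
  refine ⟨h1.linear_preimage L.toLinearMap,
    L.toHomeomorph.isCompact_preimage.mpr h2, ?_⟩
  have : interior (L ⁻¹' K) = L ⁻¹' interior K :=
    (L.toHomeomorph.preimage_interior K).symm
  rw [this]
  obtain ⟨x, hx⟩ := h3
  exact ⟨L.symm x, by simpa using hx⟩

lemma c1_equiv {V W : Type*} [NormedAddCommGroup V] [NormedSpace ℝ V] [NormedAddCommGroup W]
    [NormedSpace ℝ W] (L : V ≃L[ℝ] W) {K : Set W} (hK : C1 K) : C1 (L ⁻¹' K) := by
  intro p hp f g hf hg hf' hg'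
  have key : ∀ f : V →L[ℝ] ℝ, f ≠ 0 → f.comp (L.symm : W →L[ℝ] V) ≠ 0 := by
    intro f hf h0
    apply hf
    ext v
    have := DFunLike.congr_fun h0 (L v)
    simpa using this
  obtain ⟨c, hc, h⟩ := hK (L p) hp (f.comp (L.symm : W →L[ℝ] V)) (g.comp (L.symm : W →L[ℝ] V))
    (key f hf) (key g hg)
    (fun q hq => by
      have := hf' (L.symm q) (by simpa using hq)
      simpa using this)
    (fun q hq => by
      have := hg' (L.symm q) (by simpa using hq)
      simpa using this)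
  refine ⟨c, hc, ?_⟩
  ext v
  have := DFunLike.congr_fun h (L v)
  simpa using this

theorem t_sgb : SGBStmt := by
  intro K hK
  refine ⟨fun g => ?_, ?_, fun g hC => ?_⟩
  · rw [Sg_eq]
    exact body3_equiv _ hK
  · ext p
    simp [Sg]
  · rw [Sg_eq]
    exact c1_equiv _ hC

end Pool.XR2
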