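import Pool.Agent.H91.XR2.SGB

/-!
# XR2, row UNV: unverified bodies in coordinates
-/

set_option autoImplicit false

open MeasureTheory Set Filter Topology Metric
open scoped Real ENNReal RealInnerProductSpace

namespace Pool.XR2

open Pool.Agent.H45.XR

lemma body3_equivE (L : (ℂ × ℝ) ≃L[ℝ] E3) {K : Set E3} (hK : IsConvexBody K) :
    Body3 (L ⁻¹' K) := by
  obtain ⟨h1, h2, h3⟩ := hK
  refine ⟨h1.linear_preimage L.toLinearMap,
    L.toHomeomorph.isCompact_preimage.mpr h2, ?_⟩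
  have : interior (L ⁻¹' K) = L ⁻¹' interior K :=
    (L.toHomeomorph.preimage_interior K).symm
  rw [this]
  obtain ⟨x, hx⟩ := h3
  exact ⟨L.symm x, by simpa using hx⟩

/-- Two directions of the plane are independent. -/
lemma e_indep {φ₀ φ₁ : ℝ} (h0 : φ₀ < φ₁) (h1 : φ₁ < φ₀ + π) {a c : ℝ}
    (h : (a : ℂ) * e φ₀ + (c : ℂ) * e φ₁ = 0) : a = 0 ∧ c = 0 := by
  have hs : Real.sin (φ₁ - φ₀) ≠ 0 :=
    (Real.sin_pos_of_pos_of_lt_pi (by linarith) (by linarith)).ne'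
  constructor
  · have h2 := congrArg (tc φ₁) h
    rw [tc_add, tc_mul, tc_mul, tc_e_self, tc_e, tc_zero, mul_zero, add_zero] at h2
    rcases mul_eq_zero.1 h2 with h3 | h3
    · exact h3
    · exfalso
      apply hs
      have : φ₁ - φ₀ = -(φ₀ - φ₁) := by ring
      rw [this, Real.sin_neg, h3, neg_zero]
  · have h2 := congrArg (tc φ₀) h
    rw [tc_add, tc_mul, tc_mul, tc_e_self, tc_e, tc_zero, mul_zero, zero_add] at h2
    exact (mul_eq_zero.1 h2).resolve_right hs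

/-- Lines parallel to a horizontal direction. -/
lemma vol_line (L : (ℂ × ℝ) ≃L[ℝ] E3) (K : Set E3) (φ h : ℝ) (p : ℂ)
    (hU : L (e φ, 0) ≠ 0) :
    volume {s : ℝ | p + s * e φ ∈ sec (L ⁻¹' K) h} =
      ENNReal.ofReal |‖L (e φ, 0)‖⁻¹| *
        volume {t : ℝ | L (p, h) + t • (‖L (e φ, 0)‖⁻¹ • L (e φ, 0)) ∈ K} := by
  have hn : ‖L (e φ, 0)‖ ≠ 0 := norm_ne_zero_iff.2 hU
  rw [← Real.volume_preimage_mul_left hn]
  congr 1
  ext s
  simp only [sec, mem_ofPred_eq, mem_preimage]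
  have h1 : ((p + s * e φ, h) : ℂ × ℝ) = (p, h) + s • ((e φ, 0) : ℂ × ℝ) := by
    ext <;> simp
  rw [h1, map_add, map_smul, smul_smul, mul_assoc, mul_comm s, ← mul_assoc,
    mul_inv_cancel₀ hn, one_mul]

theorem t_unv : UNVStmt := by
  intro K hK b g φ₀ φ₁ h01 h10
  obtain ⟨L, hL⟩ : ∃ L, L = (shr g).trans (coordE b) := ⟨_, rfl⟩
  have hSg : ∀ K : Set E3, Sg g (coordE b ⁻¹' K) = L ⁻¹' K := by
    intro K
    rw [hL, Sg_eq]
    rfl
  have hne : ∀ φ, L (e φ, 0) ≠ 0 := by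
    intro φ h0
    rw [map_eq_zero_iff L L.injective] at h0
    exact e_ne_zero φ (congrArg Prod.fst h0)
  have hn : ∀ φ, ‖L (e φ, 0)‖ ≠ 0 := fun φ => norm_ne_zero_iff.2 (hne φ)
  obtain ⟨u, hu⟩ : ∃ u : ℝ → sphere (0 : E3) 1, ∀ φ, (u φ : E3) =
      ‖L (e φ, 0)‖⁻¹ • L (e φ, 0) := by
    refine ⟨fun φ => ⟨‖L (e φ, 0)‖⁻¹ • L (e φ, 0), ?_⟩, fun φ => rfl⟩
    rw [mem_sphere_zero_iff_norm, norm_smul, norm_inv, norm_norm, inv_mul_cancel₀ (hn φ)]
  have hli : LinearIndependent ℝ ![(u φ₀ : E3), (u φ₁ : E3)] := by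
    rw [LinearIndependent.pair_iff]
    intro a c hac
    rw [hu, hu, smul_smul, smul_smul, ← map_smul, ← map_smul, ← map_add,
      map_eq_zero_iff L L.injective] at hac
    have h1 := congrArg Prod.fst hac
    simp only [Prod.fst_add, Prod.smul_fst, Prod.fst_zero, Complex.real_smul] at h1
    obtain ⟨h2, h3⟩ := e_indep h01 h10 h1
    exact ⟨(mul_eq_zero.1 h2).resolve_right (inv_ne_zero (hn _)),
      (mul_eq_zero.1 h3).resolve_right (inv_ne_zero (hn _))⟩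
  have hnv := hK.2 (u φ₀) (u φ₁) hli
  unfold Pool.Agent.H61.TX.Verifies at hnv
  push Not at hnv
  obtain ⟨K'', hb, hx0, hx1, hKK⟩ := hnv
  have key : ∀ φ, Pool.Agent.H61.TX.xray (u φ) K'' = Pool.Agent.H61.TX.xray (u φ) K →
      ∀ h, SameX (sec (L ⁻¹' K) h) (sec (L ⁻¹' K'') h) φ := by
    intro φ hx h p
    rw [vol_line L K φ h p (hne φ), vol_line L K'' φ h p (hne φ)]
    have h1 := Pool.Agent.H61.TX.xray_line hx (L (p, h))
    unfold Pool.Agent.H61.TX.chord at h1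
    rw [hu] at h1
    rw [h1]
  refine ⟨L ⁻¹' K'', ?_, ?_⟩
  · rw [hSg]
    exact ⟨body3_equivE L hb, key φ₀ hx0, key φ₁ hx1⟩
  · rw [hSg]
    intro heq
    apply hKK
    ext x
    have h2 : L.symm x ∈ L ⁻¹' K'' ↔ L.symm x ∈ L ⁻¹' K := by rw [heq]
    simpa using h2

end Pool.XR2
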