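import Pool.Agent.H52.XR2.S2

/-!
# XR2, row SRA: orthogonal symmetries in coordinates
-/

set_option autoImplicit false

open MeasureTheory Set Filter Topology Metric
open scoped Real ENNReal RealInnerProductSpace

namespace Pool.XR2

open Pool.Agent.H45.XR

lemma I_mul_e (φ : ℝ) : Complex.I * e φ = e (φ + π / 2) := by
  apply Complex.ext
  · simp [Real.cos_add_pi_div_two]
  · simp [Real.sin_add_pi_div_two]

lemma coord_line (b : OrthonormalBasis (Fin 3) ℝ E3) (φ h t s : ℝ) :
    coord b ((t : ℂ) * (Complex.I * e φ) + s * e φ, h) =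
      (t • dirE b (φ + π / 2) + h • b 2) + s • dirE b φ := by
  rw [I_mul_e]
  simp only [dirE, coord, Complex.add_re, Complex.add_im, Complex.re_ofReal_mul,
    Complex.im_ofReal_mul, zero_smul, add_zero, smul_add, add_smul, mul_smul]
  abel

/-- The X-ray of a section in terms of the X-ray of the body. -/
lemma sra_xr_sec (K : Set E3) (b : OrthonormalBasis (Fin 3) ℝ E3) (φ h t : ℝ) :
    xr (sec (coordE b ⁻¹' K) h) φ t =
      (xl K (dirE b φ) (t • dirE b (φ + π / 2) + h • b 2)).toReal := by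
  unfold xr xl
  congr 2
  ext s
  simp only [sec, mem_ofPred_eq, mem_preimage, coordE_apply]
  rw [coord_line]

lemma inner_dirE_two (b : OrthonormalBasis (Fin 3) ℝ E3) (φ : ℝ) : ⟪dirE b φ, b 2⟫ = (0 : ℝ) := by
  rw [real_inner_comm]
  exact (inner_coord b (e φ, 0)).2.2

lemma inner_dirE_self (b : OrthonormalBasis (Fin 3) ℝ E3) (φ : ℝ) :
    ⟪dirE b φ, dirE b φ⟫ = (1 : ℝ) := by
  rw [real_inner_self_eq_norm_sq, norm_dirE, one_pow]

theorem t_sra : SRAStmt := by
  intro K b φ _ hS
  refine ⟨0, 0, fun h _ t => ?_⟩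
  have e1 : (0 : ℝ) + 0 * h + t = t := by ring
  have e2 : (0 : ℝ) + 0 * h - t = -t := by ring
  rw [e1, e2, sra_xr_sec, sra_xr_sec]
  have h1 := hS (t • dirE b (φ + π / 2) + h • b 2)
  have h2 : ⟪dirE b (φ + π / 2), t • dirE b (φ + π / 2) + h • b 2⟫ = t := by
    rw [inner_add_right, inner_smul_right, inner_smul_right, inner_dirE_self, inner_dirE_two]
    ring
  rw [h2] at h1
  have h3 : t • dirE b (φ + π / 2) + h • b 2 - (2 * t) • dirE b (φ + π / 2) =
      (-t) • dirE b (φ + π / 2) + h • b 2 := by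
    rw [neg_smul, two_mul, add_smul]
    abel
  rw [h3] at h1
  rw [h1]

end Pool.XR2
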